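import Pool.Agent.H289R3.FS.Stmts

/-! Task `D` of project H289-FS: the angle of the Hermitian product of two sections of the
tautological line bundle. -/

set_option autoImplicit false
open Set Topology Filter

namespace Pool.Agent.H289R3.FS

namespace TD

/-- the angle of a complex number, in `ℝ/ℤ` -/
noncomputable def ang (z : ℂ) : T1 :=
  (AddCircle.homeomorphCircle (T := 1) one_ne_zero).symm (Circle.exp (Complex.arg z))

theorem exp_arg (z : ℂ) (hz : z ≠ 0) : (Circle.exp (Complex.arg z) : ℂ) = z / ‖z‖ := by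
  have hz' : (‖z‖ : ℂ) ≠ 0 := by simpa using hz
  rw [Circle.coe_exp, eq_div_iff hz', mul_comm]
  exact Complex.norm_mul_exp_arg_mul_I z

theorem ang_cont {z : ℂ} (hz : z ≠ 0) : ContinuousAt ang z := by
  apply (AddCircle.homeomorphCircle (T := 1) one_ne_zero).symm.continuous.continuousAt.comp
  refine (Topology.IsInducing.continuousAt_iff
    (⟨rfl⟩ : Topology.IsInducing (fun c : Circle => (c : ℂ)))).2 ?_
  have h1 : ContinuousAt (fun w : ℂ => w / ‖w‖) z := by
    apply ContinuousAt.div continuousAt_id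
    · exact (Complex.continuous_ofReal.comp continuous_norm).continuousAt
    · simpa using hz
  apply h1.congr
  filter_upwards [isOpen_ne.mem_nhds hz] with w hw
  exact (exp_arg w hw).symm

theorem ang_mul {z : ℂ} (hz : z ≠ 0) (s : ℝ) :
    ang (Complex.exp (2 * Real.pi * Complex.I * s) * z) = ang z + (s : T1) := by
  set H := AddCircle.homeomorphCircle (T := 1) one_ne_zero with hH
  have hw : Complex.exp (2 * Real.pi * Complex.I * s) * z ≠ 0 :=
    mul_ne_zero (Complex.exp_ne_zero _) hz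
  have hnorm : ‖Complex.exp (2 * Real.pi * Complex.I * s)‖ = 1 := by
    have : (2 * Real.pi * Complex.I * s : ℂ) = ((2 * Real.pi * s : ℝ) : ℂ) * Complex.I := by
      push_cast; ring
    rw [this, Complex.norm_exp_ofReal_mul_I]
  have hkey : Circle.exp (Complex.arg (Complex.exp (2 * Real.pi * Complex.I * s) * z)) =
      Circle.exp (Complex.arg z) * Circle.exp (2 * Real.pi * s) := by
    apply Circle.ext
    rw [Circle.coe_mul, exp_arg _ hw, exp_arg _ hz, norm_mul, hnorm, one_mul, Circle.coe_exp]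
    have : (2 * Real.pi * Complex.I * s : ℂ) = ((2 * Real.pi * s : ℝ) : ℂ) * Complex.I := by
      push_cast; ring
    rw [this]
    ring
  have h1 : H (ang z) = Circle.exp (Complex.arg z) := by
    rw [ang]; exact H.apply_symm_apply _
  have h2 : H ((s : ℝ) : T1) = Circle.exp (2 * Real.pi * s) := by
    rw [hH, AddCircle.homeomorphCircle_apply, AddCircle.toCircle_apply_mk]
    simp
  have h3 : H (ang z + (s : T1)) = H (ang z) * H ((s : ℝ) : T1) := by
    simp only [hH, AddCircle.homeomorphCircle_apply]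
    exact AddCircle.toCircle_add _ _
  apply H.injective
  rw [h3, h1, h2, ← hkey, ang]
  exact H.apply_symm_apply _

/-- the Hermitian product -/
noncomputable def hp (v w : ℂ × ℂ) : ℂ :=
  (starRingEnd ℂ) v.1 * w.1 + (starRingEnd ℂ) v.2 * w.2

theorem hp_ne_zero {p : EuclideanSpace ℝ (Fin 3)} {v w : ℂ × ℂ} (hv : v ≠ 0) (hw : w ≠ 0)
    (h1 : InLine p v) (h2 : InLine p w) : hp v w ≠ 0 := by
  intro h
  have hpar : v.1 * w.2 = v.2 * w.1 := by
    obtain ⟨a1, a2⟩ := h1
    obtain ⟨b1, b2⟩ := h2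
    linear_combination ((1 : ℂ) / 2 * w.1) * a2 - (1 / 2 * v.1) * b2 + (1 / 2 * v.2) * b1 -
      (1 / 2 * w.2) * a1
  have hN : (starRingEnd ℂ) v.1 * v.1 + (starRingEnd ℂ) v.2 * v.2 ≠ 0 := by
    intro h0
    apply hv
    have e : (starRingEnd ℂ) v.1 * v.1 + (starRingEnd ℂ) v.2 * v.2 =
        ((Complex.normSq v.1 + Complex.normSq v.2 : ℝ) : ℂ) := by
      rw [mul_comm, Complex.mul_conj, mul_comm, Complex.mul_conj]
      push_cast; rfl
    rw [e] at h0
    have h0' : Complex.normSq v.1 + Complex.normSq v.2 = 0 := by exact_mod_cast h0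
    have n1 := Complex.normSq_nonneg v.1
    have n2 := Complex.normSq_nonneg v.2
    have z1 : Complex.normSq v.1 = 0 := by linarith
    have z2 : Complex.normSq v.2 = 0 := by linarith
    exact Prod.ext (Complex.normSq_eq_zero.1 z1) (Complex.normSq_eq_zero.1 z2)
  have k1 : ((starRingEnd ℂ) v.1 * v.1 + (starRingEnd ℂ) v.2 * v.2) * w.1 = 0 := by
    unfold hp at h
    linear_combination v.1 * h - (starRingEnd ℂ) v.2 * hpar
  have k2 : ((starRingEnd ℂ) v.1 * v.1 + (starRingEnd ℂ) v.2 * v.2) * w.2 = 0 := by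
    unfold hp at h
    linear_combination v.2 * h + (starRingEnd ℂ) v.1 * hpar
  apply hw
  exact Prod.ext ((mul_eq_zero.1 k1).resolve_left hN) ((mul_eq_zero.1 k2).resolve_left hN)

end TD

open TD in
theorem taskD : TaskD := by
  intro hLift hEta
  obtain ⟨e, η, he, hη, h⟩ := hEta
  refine ⟨e, he, fun s t => ⟨(h s t).2.2.1, (h s t).2.2.2.1⟩, ?_⟩
  intro E _ _ _ q hq R
  obtain ⟨σ, hσc, hσ⟩ := hLift E q hq R
  refine ⟨fun x s t => ang (hp (σ x) (η s t)), ?_, ?_⟩
  · intro x hx
    obtain ⟨hxR, hxq⟩ := hx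
    have hxb : x.1 ∈ Metric.ball (0 : E) R := by simpa using hxR
    have hne : hp (σ x.1) (η x.2.1 x.2.2) ≠ 0 := by
      have h1 := hσ x.1 hxb
      have h2 := h x.2.1 x.2.2
      rw [← hxq] at h2
      exact hp_ne_zero h1.1 h2.1 h1.2 h2.2.1
    apply ContinuousAt.comp_continuousWithinAt (g := ang)
      (f := fun x : E × ℝ × ℝ => hp (σ x.1) (η x.2.1 x.2.2)) (ang_cont hne)
    have hσw : ContinuousWithinAt (fun x : E × ℝ × ℝ => σ x.1)
        {x : E × ℝ × ℝ | ‖x.1‖ < R ∧ q x.1 = e x.2.1 x.2.2} x := by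
      refine (hσc x.1 hxb).comp (continuous_fst.continuousWithinAt) ?_
      rintro y ⟨hy, -⟩
      simpa using hy
    have hηw : ContinuousWithinAt (fun x : E × ℝ × ℝ => η x.2.1 x.2.2)
        {x : E × ℝ × ℝ | ‖x.1‖ < R ∧ q x.1 = e x.2.1 x.2.2} x :=
      (hη.comp continuous_snd).continuousWithinAt
    unfold hp
    apply ContinuousWithinAt.add
    · exact (Complex.continuous_conj.continuousAt.comp_continuousWithinAt hσw.fst).mul hηw.fst
    · exact (Complex.continuous_conj.continuousAt.comp_continuousWithinAt hσw.snd).mul hηw.snd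
  · intro x s t hx hq'
    have hxb : x ∈ Metric.ball (0 : E) R := by simpa using hx
    obtain ⟨g1, g2, g3, g4, g5, g6⟩ := h s t
    have hne : hp (σ x) (η s t) ≠ 0 := by
      rw [← hq'] at g2
      exact hp_ne_zero (hσ x hxb).1 g1 (hσ x hxb).2 g2
    refine ⟨?_, ?_⟩
    · show ang (hp (σ x) (η (s + 1) t)) = ang (hp (σ x) (η s t))
      rw [g5]
    · show ang (hp (σ x) (η s (t + 1))) = ang (hp (σ x) (η s t)) + (s : T1)
      rw [g6, ← ang_mul hne s]
      congr 1
      simp only [hp, Prod.smul_fst, Prod.smul_snd, smul_eq_mul]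
      ring

end Pool.Agent.H289R3.FS
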